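import Pool.Agent.Lib.MP_90732c_al.Cx.Two
import Pool.Agent.Lib.MP_90732c_al.Ab.GEN
import Pool.Agent.Lib.MP_90732c_al.Ab.EXT

/-! CST: basic facts on relations and their cost (second copy). -/

set_option autoImplicit false

open MeasureTheory
open scoped ENNReal Pointwise

namespace Pool.Agent.Lib.MP_90732c_al.Cx.H53

open Ab

theorem cst : CstStatement := by
  intro G _ Y _ _ ν _ S C h
  obtain ⟨ι, hι, s, A, hA, hS, hC⟩ := h
  have hR := Gen.isRel s A
  refine ⟨⟨fun y => (hS y 1).2 (hR.one y),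
    fun y g h h1 h2 => (hS y _).2 (hR.mul y g h ((hS y g).1 h1) ((hS _ h).1 h2)),
    fun y g h => (hS _ _).2 (hR.inv y g ((hS y g).1 h))⟩, ?_, ?_, ?_, ?_⟩
  · intro hG g
    have h1 : {y | S y g} = {y | Gen s A y g} := by
      ext y
      exact hS y g
    rw [h1]
    exact Gen.measurable s A hA hG g
  · intro C' hCC
    exact ⟨ι, hι, s, A, hA, hS, hC.trans hCC⟩
  · intro κ _ t B hB
    refine ⟨Gen (Sum.elim s t) (Sum.elim A B), ⟨ι ⊕ κ, inferInstance, Sum.elim s t,
      Sum.elim A B, ?_, fun _ _ => Iff.rfl, ?_⟩, ?_, ?_⟩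
    · rintro (i | j)
      · exact hA i
      · exact hB j
    · rw [Summable.tsum_sum ENNReal.summable ENNReal.summable]
      simp only [Sum.elim_inl, Sum.elim_inr]
      gcongr
    · intro y g hy
      exact Gen.mono (fun i z hz => Gen.edge (Sum.elim s t) (Sum.elim A B) (Sum.inl i) z hz) y g
        ((hS y g).1 hy)
    · intro j y hy
      exact Gen.edge (Sum.elim s t) (Sum.elim A B) (Sum.inr j) y hy
  · intro Ω _ _ P _
    refine ⟨ι, hι, s, fun i => (Prod.fst : Y × Ω → Y) ⁻¹' A i, fun i => measurable_fst (hA i),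
      fun x g => ?_, ?_⟩
    · rw [gen_prod_iff]
      exact hS x.1 g
    · refine le_trans (le_of_eq ?_) hC
      congr 1
      funext i
      have h5 : (Prod.fst : Y × Ω → Y) ⁻¹' A i = A i ×ˢ (Set.univ : Set Ω) := by
        ext x
        simp
      beta_reduce
      rw [h5, Measure.prod_prod, measure_univ, mul_one]

end Pool.Agent.Lib.MP_90732c_al.Cx.H53
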